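import Mathlib

set_option autoImplicit false

/-!
# Measures of weak non-compactness and Lipschitz-free spaces: definitions
-/

noncomputable section

namespace Pool.Agent.NH62.WK

open Set ENNReal

universe u

section measures

variable {X : Type u} [NormedAddCommGroup X] [NormedSpace ℝ X]

/-- `dhat A B = sup_{a ∈ A} dist(a, B)` -/
def dhat {Y : Type u} [PseudoEMetricSpace Y] (A B : Set Y) : ℝ≥0∞ := ⨆ a ∈ A, Metric.infEDist a B

/-- `K` is weakly compact. -/
def WeaklyCompact (K : Set X) : Prop := IsCompact (toWeakSpace ℝ X '' K)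

/-- De Blasi's measure of weak non-compactness. -/
def omega (A : Set X) : ℝ≥0∞ := ⨅ (K : Set X) (_ : WeaklyCompact K), dhat A K

/-- The weak-star closure of a subset of the bidual. -/
def wstarClosure (S : Set (StrongDual ℝ (StrongDual ℝ X))) : Set (StrongDual ℝ (StrongDual ℝ X)) :=
  StrongDual.toWeakDual ⁻¹' closure (StrongDual.toWeakDual '' S)

/-- The canonical embedding of `X` into its bidual. -/
def canon (X : Type u) [NormedAddCommGroup X] [NormedSpace ℝ X] :
    X → StrongDual ℝ (StrongDual ℝ X) := fun x => NormedSpace.inclusionInDoubleDual ℝ X x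

/-- `wk A`: how far the weak-star closure of `A` in the bidual is from `X`. -/
def wk (A : Set X) : ℝ≥0∞ := dhat (wstarClosure (canon X '' A)) (range (canon X))

end measures

/-- The metric space `M` is uniformly separated. -/
def UniformlySeparated (M : Type u) [MetricSpace M] : Prop :=
  ∃ s : ℝ, 0 < s ∧ ∀ x y : M, x ≠ y → s ≤ dist x y

/-- The vector space of the real Lipschitz functions on `M` which vanish at the base point `o`. -/
def lipSub (M : Type u) [MetricSpace M] (o : M) : Submodule ℝ (M → ℝ) where
  carrier := {f | f o = 0 ∧ ∃ K : ℝ, 0 ≤ K ∧ ∀ x y, |f x - f y| ≤ K * dist x y}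
  zero_mem' := ⟨rfl, 0, le_rfl, fun x y => by simp⟩
  add_mem' := by
    rintro f g ⟨hf, K, hK, hfK⟩ ⟨hg, L, hL, hgL⟩
    refine ⟨by simp [hf, hg], K + L, by positivity, fun x y => ?_⟩
    have : (f + g) x - (f + g) y = (f x - f y) + (g x - g y) := by
      simp only [Pi.add_apply]; ring
    rw [this]
    calc _ ≤ |f x - f y| + |g x - g y| := abs_add_le _ _
      _ ≤ _ := by rw [add_mul]; exact add_le_add (hfK x y) (hgL x y)
  smul_mem' := by
    rintro c f ⟨hf, K, hK, hfK⟩
    refine ⟨by simp [hf], |c| * K, by positivity, fun x y => ?_⟩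
    have : (c • f) x - (c • f) y = c * (f x - f y) := by
      simp only [Pi.smul_apply, smul_eq_mul]; ring
    rw [this, abs_mul, mul_assoc]
    exact mul_le_mul_of_nonneg_left (hfK x y) (abs_nonneg _)

/-- `Lip0 M o`: the space of the Lipschitz functions on `M` vanishing at `o`, normed by the least
Lipschitz constant. -/
def Lip0 (M : Type u) [MetricSpace M] (o : M) : Type u := ↥(lipSub M o)

variable {M : Type u} [MetricSpace M] {o : M}

/-- The underlying function. -/
def Lip0.fn (f : Lip0 M o) : M → ℝ := f.1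

section raw

/-- pointwise addition -/
local instance lipACG : AddCommGroup (Lip0 M o) := Submodule.addCommGroup (lipSub M o)
/-- pointwise scalar multiplication -/
local instance lipMod : Module ℝ (Lip0 M o) := Submodule.module (lipSub M o)

/-- The norm: the least Lipschitz constant. -/
instance : Norm (Lip0 M o) :=
  ⟨fun f => sInf {K : ℝ | 0 ≤ K ∧ ∀ x y, |f.fn x - f.fn y| ≤ K * dist x y}⟩

theorem Lip0.ext {f g : Lip0 M o} (h : ∀ x, f.fn x = g.fn x) : f = g :=
  Subtype.ext (funext h)

theorem Lip0.set_nonempty (f : Lip0 M o) :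
    {K : ℝ | 0 ≤ K ∧ ∀ x y, |f.fn x - f.fn y| ≤ K * dist x y}.Nonempty := by
  obtain ⟨K, hK, h⟩ := f.2.2
  exact ⟨K, hK, h⟩

theorem Lip0.norm_le' (f : Lip0 M o) {K : ℝ} (hK : 0 ≤ K)
    (h : ∀ x y, |f.fn x - f.fn y| ≤ K * dist x y) : ‖f‖ ≤ K :=
  csInf_le ⟨0, fun _ h => h.1⟩ ⟨hK, h⟩

theorem Lip0.norm_nonneg' (f : Lip0 M o) : 0 ≤ ‖f‖ :=
  le_csInf f.set_nonempty fun _ h => h.1

theorem Lip0.abs_sub_le (f : Lip0 M o) (x y : M) : |f.fn x - f.fn y| ≤ ‖f‖ * dist x y := by
  rcases eq_or_ne x y with rfl | hxy
  · simp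
  · have hd : 0 < dist x y := dist_pos.2 hxy
    rw [← div_le_iff₀ hd]
    refine le_csInf f.set_nonempty ?_
    rintro K ⟨_, hK⟩
    rw [div_le_iff₀ hd]
    exact hK x y

theorem Lip0.fn_base (f : Lip0 M o) : f.fn o = 0 := f.2.1

theorem Lip0.core : NormedSpace.Core ℝ (Lip0 M o) where
  norm_nonneg f := f.norm_nonneg'
  norm_smul c f := by
    have hs : ∀ x, (c • f).fn x = c * f.fn x := fun _ => rfl
    apply le_antisymm
    · refine Lip0.norm_le' _ (mul_nonneg (norm_nonneg _) f.norm_nonneg') fun x y => ?_
      have : (c • f).fn x - (c • f).fn y = c * (f.fn x - f.fn y) := by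
        simp only [hs]; ring
      rw [this, abs_mul, mul_assoc]
      exact mul_le_mul_of_nonneg_left (f.abs_sub_le x y) (abs_nonneg _)
    · rcases eq_or_ne c 0 with rfl | hc
      · simp only [norm_zero, zero_mul]; exact Lip0.norm_nonneg' _
      · have hc' : 0 < ‖c‖ := norm_pos_iff.2 hc
        rw [← le_div_iff₀' hc']
        refine Lip0.norm_le' _ (div_nonneg (Lip0.norm_nonneg' _) hc'.le) fun x y => ?_
        have h1 := (c • f).abs_sub_le x y
        have : (c • f).fn x - (c • f).fn y = c * (f.fn x - f.fn y) := by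
          simp only [hs]; ring
        rw [this, abs_mul] at h1
        rw [div_mul_eq_mul_div, le_div_iff₀ hc']
        rw [Real.norm_eq_abs, mul_comm]
        exact h1
  norm_triangle f g := by
    refine Lip0.norm_le' _ (add_nonneg f.norm_nonneg' g.norm_nonneg') fun x y => ?_
    have hs : ∀ x, (f + g).fn x = f.fn x + g.fn x := fun _ => rfl
    have : (f + g).fn x - (f + g).fn y = (f.fn x - f.fn y) + (g.fn x - g.fn y) := by
      simp only [hs]; ring
    rw [this]
    calc _ ≤ |f.fn x - f.fn y| + |g.fn x - g.fn y| := abs_add_le _ _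
      _ ≤ _ := by rw [add_mul]; exact add_le_add (f.abs_sub_le x y) (g.abs_sub_le x y)
  norm_eq_zero_iff f := by
    constructor
    · intro h
      apply Lip0.ext
      intro x
      have h1 := f.abs_sub_le x o
      rw [h, zero_mul, Lip0.fn_base, sub_zero] at h1
      exact abs_nonpos_iff.1 h1
    · rintro rfl
      apply le_antisymm _ (Lip0.norm_nonneg' _)
      have hs : ∀ x, (0 : Lip0 M o).fn x = 0 := fun _ => rfl
      refine Lip0.norm_le' _ le_rfl fun x y => by simp [hs]

instance : NormedAddCommGroup (Lip0 M o) := NormedAddCommGroup.ofCore (Lip0.core (M := M) (o := o))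
instance : NormedSpace ℝ (Lip0 M o) := NormedSpace.ofCore (Lip0.core (M := M) (o := o))

end raw

/-- The evaluation functional `f ↦ f x` on `Lip0 M o`. -/
def evalAt (M : Type u) [MetricSpace M] (o : M) (x : M) : StrongDual ℝ (Lip0 M o) :=
  LinearMap.mkContinuous
    { toFun := fun f => f.fn x
      map_add' := fun _ _ => rfl
      map_smul' := fun _ _ => rfl } (dist x o) (fun f => by
        have := f.abs_sub_le x o
        rw [Lip0.fn_base, sub_zero, mul_comm] at this
        exact this)

/-- The closed linear span of the evaluation functionals in the dual of `Lip0 M o`. -/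
def freeSub (M : Type u) [MetricSpace M] (o : M) : Submodule ℝ (StrongDual ℝ (Lip0 M o)) :=
  (Submodule.span ℝ (Set.range (evalAt M o))).topologicalClosure

/-- The Lipschitz-free space of the pointed metric space `(M, o)`. -/
def Free (M : Type u) [MetricSpace M] (o : M) : Type u := ↥(freeSub M o)

/-- the norm of the dual space, restricted -/
instance freeGroup (M : Type u) [MetricSpace M] (o : M) : NormedAddCommGroup (Free M o) :=
  Submodule.normedAddCommGroup (freeSub M o)

/-- the real vector space structure -/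
instance freeSpace (M : Type u) [MetricSpace M] (o : M) : NormedSpace ℝ (Free M o) :=
  Submodule.normedSpace (freeSub M o)

end Pool.Agent.NH62.WK
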