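import Pool.Agent.NH62.WK.Ros

set_option autoImplicit false

/-! The geometric selection for finitely supported functions on a uniformly separated metric
space. -/

noncomputable section

namespace Pool.Agent.NH62.WK

open Filter Topology Metric

universe u

variable {M : Type u} [MetricSpace M]

/-- the clamp of a number between `-t` and `t` -/
def clamp (t b : ℝ) : ℝ := max (-t) (min t b)

theorem clamp_eq_of_abs_le {t b : ℝ} (h : |b| ≤ t) : clamp t b = b := by
  unfold clamp
  rw [abs_le] at h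
  rw [min_eq_right h.2, max_eq_right h.1]

theorem abs_clamp_le_left {t b : ℝ} (ht : 0 ≤ t) : |clamp t b| ≤ t := by
  unfold clamp
  rw [abs_le]
  exact ⟨le_max_left _ _, max_le (by linarith) (min_le_left _ _)⟩

theorem abs_clamp_sub_le {t b : ℝ} (ht : 0 ≤ t) : |clamp t b - b| ≤ |b| := by
  rcases le_or_gt |b| t with h | h
  · rw [clamp_eq_of_abs_le h]; simp
  · unfold clamp
    rcases abs_cases b with ⟨h1, h2⟩ | ⟨h1, h2⟩
    · rw [min_eq_left (by linarith), max_eq_right (by linarith), abs_le]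
      constructor <;> linarith
    · rw [min_eq_right (by linarith), max_eq_left (by linarith), abs_le]
      constructor <;> linarith

theorem abs_clamp_clamp_le (t t' b b' L : ℝ) (ht : |t - t'| ≤ L) (hb : |b - b'| ≤ L) :
    |clamp t b - clamp t' b'| ≤ L := by
  unfold clamp
  calc |max (-t) (min t b) - max (-t') (min t' b')|
      ≤ max |(-t) - (-t')| |min t b - min t' b'| := abs_max_sub_max_le_max _ _ _ _
    _ ≤ max |(-t) - (-t')| (max |t - t'| |b - b'|) :=
        max_le_max le_rfl (abs_min_sub_min_le_max _ _ _ _)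
    _ ≤ L := by
        refine max_le ?_ (max_le ht hb)
        have : (-t) - (-t') = -(t - t') := by ring
        rw [this, abs_neg]; exact ht

open Classical in
/-- Data: finitely supported functions `θ n` and `1`-Lipschitz functions `b n`. -/
structure Data (M : Type u) [MetricSpace M] where
  o : M
  θ : ℕ → M →₀ ℝ
  b : ℕ → M → ℝ
  s : ℝ
  D : ℝ
  T : ℝ
  hs : 0 < s
  hD : 0 ≤ D
  sep : ∀ x y : M, x ≠ y → s ≤ dist x y
  lip : ∀ n x y, |b n x - b n y| ≤ dist x y
  b_o : ∀ n, b n o = 0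
  b_far : ∀ n x, D < dist x o → b n x = 0
  b_prev : ∀ k n, k < n → ∀ x ∈ (θ k).support, b n x = 0
  tv : ∀ n, ∑ x ∈ (θ n).support.filter (fun x => x ≠ o), |θ n x| ≤ T

namespace Data

open Classical in
/-- the union of the supports of the previous functions and the base point -/
def F (d : Data M) (n : ℕ) : Finset M := insert d.o ((Finset.range n).biUnion fun k => (d.θ k).support)

/-- the distance to the set of the previous points -/
def u (d : Data M) (n : ℕ) (x : M) : ℝ := infDist x (d.F n : Set M)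

theorem o_mem (d : Data M) (n : ℕ) : d.o ∈ d.F n := by
  classical
  simp [F]

theorem mem_F (d : Data M) {k n : ℕ} (h : k < n) {x : M} (hx : x ∈ (d.θ k).support) :
    x ∈ d.F n := by
  classical
  unfold F
  refine Finset.mem_insert_of_mem (Finset.mem_biUnion.2 ⟨k, Finset.mem_range.2 h, hx⟩)

theorem u_nonneg (d : Data M) (n : ℕ) (x : M) : 0 ≤ d.u n x := infDist_nonneg

theorem u_le (d : Data M) (n : ℕ) (x : M) {y : M} (hy : y ∈ d.F n) : d.u n x ≤ dist x y :=
  infDist_le_dist_of_mem (by exact_mod_cast hy)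

theorem exists_u (d : Data M) (n : ℕ) (x : M) : ∃ y ∈ d.F n, d.u n x = dist x y := by
  have hc : IsCompact (d.F n : Set M) := (d.F n).finite_toSet.isCompact
  obtain ⟨y, hy, h⟩ := hc.exists_infDist_eq_dist ⟨d.o, by exact_mod_cast d.o_mem n⟩ x
  exact ⟨y, by exact_mod_cast hy, h⟩

theorem s_le_u (d : Data M) (n : ℕ) (x : M) (h : 0 < d.u n x) : d.s ≤ d.u n x := by
  obtain ⟨y, -, hy⟩ := d.exists_u n x
  rw [hy] at h ⊢
  exact d.sep x y (dist_pos.1 h)

theorem b_F (d : Data M) (n : ℕ) {y : M} (hy : y ∈ d.F n) : d.b n y = 0 := by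
  classical
  unfold F at hy
  rcases Finset.mem_insert.1 hy with rfl | hy
  · exact d.b_o n
  · obtain ⟨k, hk, hk'⟩ := Finset.mem_biUnion.1 hy
    exact d.b_prev k n (Finset.mem_range.1 hk) y hk'

theorem abs_b_le (d : Data M) (n : ℕ) (x : M) : |d.b n x| ≤ d.u n x := by
  obtain ⟨y, hy, h⟩ := d.exists_u n x
  have := d.lip n x y
  rw [d.b_F n hy, sub_zero] at this
  rw [h]; exact this

/-- the neighbourhood of the support of `θ k` -/
def W (d : Data M) (k : ℕ) : Set M :=
  {x | ∃ z ∈ (d.θ k).support, dist z d.o ≤ d.D ∧ dist x z < d.u k z / 8}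

/-- the bound for the multiplicity of the sets `W k` -/
def J (d : Data M) : ℕ := ⌊d.D / d.s⌋₊ + 1

theorem card_le (d : Data M) (x : M) (K : Finset ℕ) (h : ∀ k ∈ K, x ∈ d.W k) :
    K.card ≤ d.J := by
  classical
  have h' : ∀ k, ∃ z, k ∈ K → (z ∈ (d.θ k).support ∧ dist z d.o ≤ d.D ∧ dist x z < d.u k z / 8) := by
    intro k
    by_cases hk : k ∈ K
    · obtain ⟨z, hz⟩ := h k hk
      exact ⟨z, fun _ => hz⟩
    · exact ⟨x, fun h => absurd h hk⟩
  choose z hz using h'
  have hpos : ∀ k ∈ K, d.s ≤ d.u k (z k) := by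
    intro k hk
    refine d.s_le_u k _ ?_
    have := (hz k hk).2.2
    have h2 : 0 ≤ dist x (z k) := dist_nonneg
    linarith
  have hgap : ∀ k ∈ K, ∀ l ∈ K, k < l → d.u l (z l) + d.s ≤ d.u k (z k) := by
    intro k hk l hl hkl
    have h1 := (hz k hk).2.2
    have h2 := (hz l hl).2.2
    have h3 : d.u l (z l) ≤ dist (z l) (z k) := d.u_le l _ (d.mem_F hkl (hz k hk).1)
    have h4 : dist (z l) (z k) ≤ dist x (z l) + dist x (z k) := by
      rw [dist_comm x (z l)]; exact dist_triangle _ _ _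
    have h5 := hpos l hl
    have h6 := d.hs
    linarith
  have hub : ∀ k ∈ K, d.u k (z k) ≤ d.D := fun k hk =>
    (d.u_le k _ (d.o_mem k)).trans (hz k hk).2.1
  have hfl : ∀ k ∈ K, ∀ l ∈ K, k < l → ⌊d.u l (z l) / d.s⌋₊ < ⌊d.u k (z k) / d.s⌋₊ := by
    intro k hk l hl hkl
    have h1 := hgap k hk l hl hkl
    have h2 : d.u l (z l) / d.s + 1 ≤ d.u k (z k) / d.s := by
      rw [div_add_one d.hs.ne', div_le_div_iff_of_pos_right d.hs]
      exact h1
    have h3 : 0 ≤ d.u l (z l) / d.s := div_nonneg (d.u_nonneg _ _) d.hs.le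
    have h4 : ⌊d.u l (z l) / d.s⌋₊ + 1 ≤ ⌊d.u k (z k) / d.s⌋₊ := by
      rw [← Nat.floor_add_one h3]
      exact Nat.floor_le_floor h2
    omega
  have hinj : Set.InjOn (fun k => ⌊d.u k (z k) / d.s⌋₊) (K : Set ℕ) := by
    intro k hk l hl hkl
    simp only at hkl
    rcases lt_trichotomy k l with h | h | h
    · have := hfl k hk l hl h; omega
    · exact h
    · have := hfl l hl k hk h; omega
  have hmaps : Set.MapsTo (fun k => ⌊d.u k (z k) / d.s⌋₊) (K : Set ℕ)
      (Finset.range d.J : Finset ℕ) := by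
    intro k hk
    have : ⌊d.u k (z k) / d.s⌋₊ ≤ ⌊d.D / d.s⌋₊ :=
      Nat.floor_le_floor (div_le_div_of_nonneg_right (hub k hk) d.hs.le)
    simp only [J, Finset.coe_range, Set.mem_Iio]
    omega
  have := Finset.card_le_card_of_injOn _ hmaps hinj
  simpa using this

open Classical in
/-- the mass of `θ n` in `W k` -/
def m (d : Data M) (n k : ℕ) : ℝ :=
  ∑ x ∈ (d.θ n).support.filter (fun x => x ≠ d.o), (if x ∈ d.W k then |d.θ n x| else 0)

theorem m_nonneg (d : Data M) (n k : ℕ) : 0 ≤ d.m n k := by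
  classical
  unfold m
  refine Finset.sum_nonneg fun x _ => ?_
  split_ifs
  · exact abs_nonneg _
  · exact le_rfl

theorem m_row (d : Data M) (n : ℕ) (K : Finset ℕ) : ∑ k ∈ K, d.m n k ≤ d.J * d.T := by
  classical
  unfold m
  rw [Finset.sum_comm]
  have h1 : ∀ x ∈ (d.θ n).support.filter (fun x => x ≠ d.o),
      ∑ k ∈ K, (if x ∈ d.W k then |d.θ n x| else 0) ≤ d.J * |d.θ n x| := by
    intro x _
    rw [← Finset.sum_filter, Finset.sum_const, nsmul_eq_mul]
    refine mul_le_mul_of_nonneg_right ?_ (abs_nonneg _)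
    have := d.card_le x (K.filter fun k => x ∈ d.W k) fun k hk => (Finset.mem_filter.1 hk).2
    exact_mod_cast this
  refine (Finset.sum_le_sum h1).trans ?_
  rw [← Finset.mul_sum]
  exact mul_le_mul_of_nonneg_left (d.tv n) (Nat.cast_nonneg _)

section select

variable (d : Data M) (φ : ℕ → ℕ)

/-- the good part of the support -/
def Good (n : ℕ) : Set M :=
  {x | x ∈ (d.θ (φ n)).support ∧ dist x d.o ≤ d.D ∧ ∀ k < n, x ∉ d.W (φ k)}

/-- a neighbourhood of the good part -/
def V (n : ℕ) : Set M := {y | ∃ x ∈ d.Good φ n, dist y x < d.u (φ n) x / 16}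

/-- the new functions -/
def g (n : ℕ) (y : M) : ℝ := clamp (infDist y (d.V φ n)ᶜ) (d.b (φ n) y / 16)

theorem o_nmem (n : ℕ) : d.o ∈ (d.V φ n)ᶜ := by
  rintro ⟨x, -, h⟩
  have h1 : d.u (φ n) x ≤ dist x d.o := d.u_le _ _ (d.o_mem _)
  rw [dist_comm] at h
  have h2 : 0 ≤ dist x d.o := dist_nonneg
  linarith

theorem g_o (n : ℕ) : d.g φ n d.o = 0 := by
  unfold g
  rw [d.b_o]
  simp only [zero_div]
  exact clamp_eq_of_abs_le (by rw [abs_zero]; exact infDist_nonneg)

theorem g_lip (n : ℕ) (x y : M) : |d.g φ n x - d.g φ n y| ≤ dist x y := by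
  unfold g
  refine abs_clamp_clamp_le _ _ _ _ _ ?_ ?_
  · have := (lipschitz_infDist_pt (d.V φ n)ᶜ).dist_le_mul x y
    simpa [Real.dist_eq] using this
  · have h1 := d.lip (φ n) x y
    have : d.b (φ n) x / 16 - d.b (φ n) y / 16 = (d.b (φ n) x - d.b (φ n) y) / 16 := by ring
    rw [this, abs_div, abs_of_pos (by norm_num : (0 : ℝ) < 16)]
    have h2 : 0 ≤ dist x y := dist_nonneg
    linarith

theorem g_supp (n : ℕ) (y : M) (h : y ∉ d.V φ n) : d.g φ n y = 0 := by
  unfold g
  have h1 : infDist y (d.V φ n)ᶜ = 0 := infDist_zero_of_mem h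
  rw [h1]
  simpa using abs_clamp_le_left (t := 0) (b := d.b (φ n) y / 16) le_rfl

theorem V_disj {φ : ℕ → ℕ} (hφ : StrictMono φ) {k n : ℕ} (hkn : k < n) (y : M)
    (h1 : y ∈ d.V φ n) (h2 : y ∈ d.V φ k) : False := by
  obtain ⟨x, hx, hxy⟩ := h1
  obtain ⟨z, hz, hzy⟩ := h2
  have h3 : d.u (φ n) x ≤ dist x z := d.u_le _ _ (d.mem_F (hφ hkn) hz.1)
  have h4 : dist x z ≤ dist y x + dist y z := by
    rw [dist_comm y x]; exact dist_triangle _ _ _
  have h5 : dist x z < d.u (φ k) z / 8 := by
    have h6 := d.u_nonneg (φ k) z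
    linarith
  exact hx.2.2 k hkn ⟨z, hz.1, hz.2.1, h5⟩

theorem g_good (n : ℕ) (x : M) (hx : x ∈ d.Good φ n) : d.g φ n x = d.b (φ n) x / 16 := by
  unfold g
  refine clamp_eq_of_abs_le ?_
  have h1 : d.u (φ n) x / 16 ≤ infDist x (d.V φ n)ᶜ := by
    refine (le_infDist ⟨d.o, d.o_nmem φ n⟩).2 fun y hy => ?_
    by_contra hlt
    push Not at hlt
    rw [dist_comm] at hlt
    exact hy ⟨x, hx, hlt⟩
  rw [abs_div, abs_of_pos (by norm_num : (0 : ℝ) < 16)]
  have := d.abs_b_le (φ n) x
  linarith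

theorem abs_sum_le (n : ℕ) :
    |∑ x ∈ (d.θ (φ n)).support, d.θ (φ n) x * (d.g φ n x - d.b (φ n) x / 16)|
      ≤ d.D / 16 * ∑ k ∈ Finset.range n, d.m (φ n) (φ k) := by
  classical
  refine (Finset.abs_sum_le_sum_abs _ _).trans ?_
  have h1 : ∀ x ∈ (d.θ (φ n)).support,
      |d.θ (φ n) x * (d.g φ n x - d.b (φ n) x / 16)|
        ≤ if x ≠ d.o then
            (d.D / 16 * ∑ k ∈ Finset.range n, (if x ∈ d.W (φ k) then |d.θ (φ n) x| else 0)) else 0 := by
    intro x hx
    have hnn : 0 ≤ ∑ k ∈ Finset.range n, (if x ∈ d.W (φ k) then |d.θ (φ n) x| else 0) :=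
      Finset.sum_nonneg fun k _ => by
        split_ifs
        · exact abs_nonneg _
        · exact le_rfl
    split_ifs with hxo
    · by_cases hgood : x ∈ d.Good φ n
      · rw [d.g_good φ n x hgood]
        simp only [sub_self, mul_zero, abs_zero]
        exact mul_nonneg (div_nonneg d.hD (by norm_num)) hnn
      · by_cases hfar : dist x d.o ≤ d.D
        · have : ∃ k < n, x ∈ d.W (φ k) := by
            by_contra hcon
            push Not at hcon
            exact hgood ⟨hx, hfar, hcon⟩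
          obtain ⟨k, hk, hkW⟩ := this
          have h2 : |d.θ (φ n) x|
              ≤ ∑ k ∈ Finset.range n, (if x ∈ d.W (φ k) then |d.θ (φ n) x| else 0) := by
            have := Finset.single_le_sum (f := fun k => if x ∈ d.W (φ k) then |d.θ (φ n) x| else 0)
              (fun k _ => by
                show (0 : ℝ) ≤ if x ∈ d.W (φ k) then |d.θ (φ n) x| else 0
                split_ifs
                · exact abs_nonneg _
                · exact le_rfl) (Finset.mem_range.2 hk)
            simpa only [if_pos hkW] using this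
          have h3 : |d.g φ n x - d.b (φ n) x / 16| ≤ d.D / 16 := by
            unfold g
            refine (abs_clamp_sub_le infDist_nonneg).trans ?_
            rw [abs_div, abs_of_pos (by norm_num : (0 : ℝ) < 16)]
            have h4 := d.abs_b_le (φ n) x
            have h5 := d.u_le (φ n) x (d.o_mem _)
            linarith
          rw [abs_mul, mul_comm]
          exact mul_le_mul h3 h2 (abs_nonneg _) (div_nonneg d.hD (by norm_num))
        · have h2 : d.b (φ n) x = 0 := d.b_far _ _ (not_le.1 hfar)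
          have h3 : d.g φ n x = 0 := by
            unfold g
            rw [h2]
            simp only [zero_div]
            exact clamp_eq_of_abs_le (by rw [abs_zero]; exact infDist_nonneg)
          rw [h2, h3]
          simp only [zero_div, sub_self, mul_zero, abs_zero]
          exact mul_nonneg (div_nonneg d.hD (by norm_num)) hnn
    · have hxo' : x = d.o := not_not.1 hxo
      rw [hxo', d.g_o, d.b_o]
      simp
  refine (Finset.sum_le_sum h1).trans ?_
  rw [← Finset.sum_filter, ← Finset.mul_sum]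
  refine mul_le_mul_of_nonneg_left ?_ (div_nonneg d.hD (by norm_num))
  rw [Finset.sum_comm]
  rfl

end select

/-- The main selection. -/
theorem exists_select (d : Data M) (ε : ℝ) (hε : 0 < ε) :
    ∃ φ : ℕ → ℕ, StrictMono φ ∧ ∃ g : ℕ → M → ℝ,
      (∀ n, g n d.o = 0) ∧ (∀ n x y, |g n x - g n y| ≤ dist x y) ∧
      (∀ k n, k ≠ n → ∀ x, g k x = 0 ∨ g n x = 0) ∧
      ∀ n, |∑ x ∈ (d.θ (φ n)).support, d.θ (φ n) x * (g n x - d.b (φ n) x / 16)| ≤ ε := by
  have hD := d.hD
  obtain ⟨φ, hφ, h⟩ := rosenthal d.m d.m_nonneg (d.J * d.T) d.m_row (ε / (d.D / 16 + 1))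
    (by positivity)
  refine ⟨φ, hφ, d.g φ, d.g_o φ, d.g_lip φ, ?_, ?_⟩
  · intro k n hkn x
    by_contra hcon
    push Not at hcon
    have h1 : x ∈ d.V φ k := by
      by_contra hc
      exact hcon.1 (d.g_supp φ k x hc)
    have h2 : x ∈ d.V φ n := by
      by_contra hc
      exact hcon.2 (d.g_supp φ n x hc)
    rcases lt_or_gt_of_ne hkn with hlt | hlt
    · exact d.V_disj hφ hlt x h2 h1
    · exact d.V_disj hφ hlt x h1 h2
  · intro n
    refine (d.abs_sum_le φ n).trans ?_
    have h1 := h n (Finset.range n) (by simp)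
    calc d.D / 16 * ∑ k ∈ Finset.range n, d.m (φ n) (φ k)
        ≤ (d.D / 16 + 1) * (ε / (d.D / 16 + 1)) := by
          refine mul_le_mul (by linarith) h1 ?_ (by positivity)
          exact Finset.sum_nonneg fun k _ => d.m_nonneg _ _
      _ = ε := mul_div_cancel₀ _ (by positivity)

end Data

end Pool.Agent.NH62.WK
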