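import Pool.Agent.NH62.WK.Wk
import Pool.Agent.NH62.WK.Geo

set_option autoImplicit false

/-! Basic facts on Lipschitz-free spaces. -/

noncomputable section

namespace Pool.Agent.NH62.WK

open Filter Topology Metric Set

universe u

section general

variable {X : Type u} [NormedAddCommGroup X] [NormedSpace ℝ X]

/-- Hahn-Banach: a functional vanishing on a finite-dimensional subspace and norming the
distance. -/
theorem exists_functional (F : Submodule ℝ X) [FiniteDimensional ℝ F] (a : X) :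
    ∃ f : StrongDual ℝ X, ‖f‖ ≤ 1 ∧ (∀ y ∈ F, f y = 0) ∧ f a = infDist a (F : Set X) := by
  obtain ⟨g, hg1, hg2⟩ := exists_dual_vector'' ℝ (Submodule.Quotient.mk a : X ⧸ F)
  refine ⟨g.comp F.mkQL, ?_, ?_, ?_⟩
  · refine ContinuousLinearMap.opNorm_le_bound _ zero_le_one fun x => ?_
    have h1 : ‖g (F.mkQL x)‖ ≤ ‖g‖ * ‖F.mkQL x‖ := g.le_opNorm _
    have h2 : ‖F.mkQL x‖ ≤ ‖x‖ := Submodule.Quotient.norm_mk_le F x
    calc ‖(g.comp F.mkQL) x‖ ≤ ‖g‖ * ‖F.mkQL x‖ := h1
      _ ≤ 1 * ‖x‖ := mul_le_mul hg1 h2 (norm_nonneg _) zero_le_one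
  · intro y hy
    have h1 : F.mkQL y = 0 := by
      rw [Submodule.mkQL_apply, Submodule.mkQ_apply, Submodule.Quotient.mk_eq_zero]
      exact hy
    show g (F.mkQL y) = 0
    rw [h1, map_zero]
  · show g (F.mkQL a) = _
    have h1 : F.mkQL a = Submodule.Quotient.mk a := rfl
    rw [h1, hg2]
    exact QuotientAddGroup.norm_mk (S := F.toAddSubgroup) a

theorem omega_le_of_finite (F : Submodule ℝ X) [FiniteDimensional ℝ F] (A : Set X) (B c : ℝ)
    (hB : ∀ a ∈ A, ‖a‖ ≤ B) (h : ∀ a ∈ A, infDist a (F : Set X) < c) :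
    omega A ≤ ENNReal.ofReal c := by
  let K : Set X := (fun y : F => (y : X)) '' closedBall (0 : F) (B + c)
  have hK : IsCompact K := (isCompact_closedBall (0 : F) (B + c)).image continuous_subtype_val
  have hKw : WeaklyCompact K := hK.image (toWeakSpaceCLM ℝ X).continuous
  refine (iInf₂_le K hKw).trans ?_
  unfold dhat
  refine iSup₂_le fun a ha => ?_
  obtain ⟨y, hy, hyd⟩ := (infDist_lt_iff ⟨0, F.zero_mem⟩).1 (h a ha)
  have hyK : y ∈ K := by
    refine ⟨⟨y, hy⟩, ?_, rfl⟩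
    rw [mem_closedBall_zero_iff]
    show ‖y‖ ≤ B + c
    have h1 : ‖y‖ ≤ ‖a‖ + ‖y - a‖ := by
      have : y = a + (y - a) := by abel
      calc ‖y‖ = ‖a + (y - a)‖ := by rw [← this]
        _ ≤ _ := norm_add_le _ _
    have h2 := hB a ha
    rw [dist_comm, dist_eq_norm] at hyd
    linarith
  refine (infEDist_le_edist_of_mem hyK).trans ?_
  rw [edist_dist]
  exact ENNReal.ofReal_le_ofReal hyd.le

end general

variable {M : Type u} [MetricSpace M] {o : M}

/-- constructor -/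
def mkL (f : M → ℝ) (h0 : f o = 0) (K : ℝ) (hK : 0 ≤ K) (h : ∀ x y, |f x - f y| ≤ K * dist x y) :
    Lip0 M o := ⟨f, h0, K, hK, h⟩

theorem mkL_fn (f : M → ℝ) (h0 : f o = 0) (K : ℝ) (hK : 0 ≤ K)
    (h : ∀ x y, |f x - f y| ≤ K * dist x y) (x : M) : (mkL f h0 K hK h).fn x = f x := rfl

theorem mkL_norm (f : M → ℝ) (h0 : f o = 0) (K : ℝ) (hK : 0 ≤ K)
    (h : ∀ x y, |f x - f y| ≤ K * dist x y) : ‖mkL f h0 K hK h‖ ≤ K :=
  Lip0.norm_le' _ hK h

theorem fn_add (f g : Lip0 M o) (x : M) : (f + g).fn x = f.fn x + g.fn x := rfl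
theorem fn_sub (f g : Lip0 M o) (x : M) : (f - g).fn x = f.fn x - g.fn x := rfl
theorem fn_smul (c : ℝ) (f : Lip0 M o) (x : M) : (c • f).fn x = c * f.fn x := rfl
theorem fn_zero (x : M) : (0 : Lip0 M o).fn x = 0 := rfl

theorem fn_sum {ι : Type*} (K : Finset ι) (f : ι → Lip0 M o) (x : M) :
    (∑ k ∈ K, f k).fn x = ∑ k ∈ K, (f k).fn x := by
  classical
  induction K using Finset.induction_on with
  | empty => simp [fn_zero]
  | insert a s ha ih => rw [Finset.sum_insert ha, Finset.sum_insert ha, fn_add, ih]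

/-- evaluation of a functional at `f` -/
def pairF (f : Lip0 M o) : StrongDual ℝ (Free M o) :=
  LinearMap.mkContinuous
    { toFun := fun x : Free M o => x.1 f
      map_add' := fun _ _ => rfl
      map_smul' := fun _ _ => rfl } ‖f‖ (fun x => by
        rw [mul_comm]
        exact x.1.le_opNorm f)

theorem pairF_apply (f : Lip0 M o) (x : Free M o) : pairF f x = x.1 f := rfl

theorem abs_pairF_le (f : Lip0 M o) (x : Free M o) : |pairF f x| ≤ ‖f‖ * ‖x‖ := by
  rw [mul_comm]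
  exact x.1.le_opNorm f

theorem disj_lip (g : ℕ → Lip0 M o) (L : ℝ) (hg : ∀ k, ‖g k‖ ≤ L)
    (hdis : ∀ k n, k ≠ n → ∀ x, (g k).fn x = 0 ∨ (g n).fn x = 0) (K : Finset ℕ) (σ : ℕ → ℝ)
    (hσ : ∀ k, |σ k| ≤ 1) : ‖∑ k ∈ K, σ k • g k‖ ≤ 2 * L := by
  classical
  have hL : 0 ≤ L := (norm_nonneg _).trans (hg 0)
  refine Lip0.norm_le' _ (by positivity) fun x y => ?_
  rw [fn_sum, fn_sum, ← Finset.sum_sub_distrib]
  -- at most one index is active at each point
  have hact : ∀ x : M, ∃ i : ℕ, ∀ k, k ≠ i → (g k).fn x = 0 := by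
    intro x
    by_cases h : ∃ i, (g i).fn x ≠ 0
    · obtain ⟨i, hi⟩ := h
      exact ⟨i, fun k hk => (hdis k i hk x).resolve_right hi⟩
    · push Not at h
      exact ⟨0, fun k _ => h k⟩
  obtain ⟨i, hi⟩ := hact x
  obtain ⟨j, hj⟩ := hact y
  have h1 : |∑ k ∈ K, ((σ k • g k).fn x - (σ k • g k).fn y)|
      ≤ ∑ k ∈ K, |(g k).fn x - (g k).fn y| := by
    refine (Finset.abs_sum_le_sum_abs _ _).trans (Finset.sum_le_sum fun k _ => ?_)
    rw [fn_smul, fn_smul, ← mul_sub, abs_mul]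
    calc |σ k| * _ ≤ 1 * |(g k).fn x - (g k).fn y| :=
          mul_le_mul_of_nonneg_right (hσ k) (abs_nonneg _)
      _ = _ := one_mul _
  have h2 : ∑ k ∈ K, |(g k).fn x - (g k).fn y|
      ≤ ∑ k ∈ ({i, j} : Finset ℕ), |(g k).fn x - (g k).fn y| := by
    have h3 : ∑ k ∈ K, |(g k).fn x - (g k).fn y|
        = ∑ k ∈ K.filter (fun k => k ∈ ({i, j} : Finset ℕ)), |(g k).fn x - (g k).fn y| := by
      rw [Finset.sum_filter]
      refine Finset.sum_congr rfl fun k _ => ?_
      split_ifs with h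
      · rfl
      · simp only [Finset.mem_insert, Finset.mem_singleton, not_or] at h
        rw [hi k h.1, hj k h.2, sub_zero, abs_zero]
    rw [h3]
    refine Finset.sum_le_sum_of_subset_of_nonneg ?_ fun _ _ _ => abs_nonneg _
    intro k hk
    exact (Finset.mem_filter.1 hk).2
  have h3 : ∑ k ∈ ({i, j} : Finset ℕ), |(g k).fn x - (g k).fn y|
      ≤ ∑ k ∈ ({i, j} : Finset ℕ), L * dist x y := by
    refine Finset.sum_le_sum fun k _ => ?_
    exact ((g k).abs_sub_le x y).trans (mul_le_mul_of_nonneg_right (hg k) dist_nonneg)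
  have h4 : ∑ k ∈ ({i, j} : Finset ℕ), L * dist x y ≤ 2 * L * dist x y := by
    rw [Finset.sum_const, nsmul_eq_mul]
    have h5 : (({i, j} : Finset ℕ).card : ℝ) ≤ 2 := by
      exact_mod_cast Finset.card_le_two
    have h6 : 0 ≤ L * dist x y := mul_nonneg hL dist_nonneg
    nlinarith
  exact h1.trans (h2.trans (h3.trans h4))

theorem disj_sum (g : ℕ → Lip0 M o) (L : ℝ) (hg : ∀ k, ‖g k‖ ≤ L)
    (hdis : ∀ k n, k ≠ n → ∀ x, (g k).fn x = 0 ∨ (g n).fn x = 0) (x : Free M o)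
    (K : Finset ℕ) : ∑ k ∈ K, |pairF (g k) x| ≤ 2 * L * ‖x‖ := by
  classical
  let σ : ℕ → ℝ := fun k => SignType.sign (pairF (g k) x)
  have hσ : ∀ k, |σ k| ≤ 1 := by
    intro k
    show |((SignType.sign (pairF (g k) x) : SignType) : ℝ)| ≤ 1
    rcases SignType.sign (pairF (g k) x) with _ | _ | _ <;> simp
  have h1 := disj_lip g L hg hdis K σ hσ
  have h2 : ∑ k ∈ K, |pairF (g k) x| = pairF (∑ k ∈ K, σ k • g k) x := by
    rw [pairF_apply, map_sum]
    refine Finset.sum_congr rfl fun k _ => ?_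
    rw [map_smul, smul_eq_mul, ← pairF_apply]
    exact (sign_mul_self _).symm
  rw [h2]
  exact ((le_abs_self _).trans (abs_pairF_le _ x)).trans
    (mul_le_mul_of_nonneg_right h1 (norm_nonneg _))

/-- the point evaluation in the free space -/
def δ (o : M) (x : M) : Free M o :=
  ⟨evalAt M o x, Submodule.le_topologicalClosure _ (Submodule.subset_span ⟨x, rfl⟩)⟩

theorem pairF_δ (f : Lip0 M o) (x : M) : pairF f (δ o x) = f.fn x := rfl

/-- the element of the free space given by a finitely supported function -/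
def emb (o : M) (θ : M →₀ ℝ) : Free M o := ∑ x ∈ θ.support, θ x • δ o x

theorem pairF_emb (f : Lip0 M o) (θ : M →₀ ℝ) :
    pairF f (emb o θ) = ∑ x ∈ θ.support, θ x * f.fn x := by
  unfold emb
  rw [map_sum]
  refine Finset.sum_congr rfl fun x _ => ?_
  rw [map_smul, smul_eq_mul, pairF_δ]

theorem norm_le_of_pairF (x : Free M o) (C : ℝ) (hC : 0 ≤ C)
    (h : ∀ f : Lip0 M o, |pairF f x| ≤ C * ‖f‖) : ‖x‖ ≤ C :=
  x.1.opNorm_le_bound hC h

theorem exists_emb_near (a : Free M o) (ε : ℝ) (hε : 0 < ε) : ∃ θ : M →₀ ℝ, ‖a - emb o θ‖ < ε := by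
  have h1 : a.1 ∈ closure ((Submodule.span ℝ (Set.range (evalAt M o)) :
      Submodule ℝ (StrongDual ℝ (Lip0 M o))) : Set (StrongDual ℝ (Lip0 M o))) := a.2
  obtain ⟨y, hy, hyd⟩ := Metric.mem_closure_iff.1 h1 ε hε
  obtain ⟨θ, hθ⟩ := (Finsupp.mem_span_range_iff_exists_finsupp).1 hy
  refine ⟨θ, ?_⟩
  have h2 : (emb o θ).1 = y := by
    rw [← hθ]
    unfold emb Finsupp.sum
    exact map_sum (freeSub M o).subtype (fun x => θ x • δ o x) θ.support
  rw [dist_eq_norm] at hyd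
  have h3 : ‖a - emb o θ‖ = ‖a.1 - y‖ := by
    rw [← h2]; rfl
  rw [h3]; exact hyd

open Classical in
theorem tv_le (s : ℝ) (hs : 0 < s) (sep : ∀ x y : M, x ≠ y → s ≤ dist x y) (θ : M →₀ ℝ) :
    ∑ x ∈ θ.support.filter (fun x => x ≠ o), |θ x| ≤ 2 / s * ‖emb o θ‖ := by
  let f : M → ℝ := fun x => if x = o then 0 else s / 2 * SignType.sign (θ x)
  have hf : ∀ x, |f x| ≤ s / 2 := by
    intro x
    show |if x = o then (0 : ℝ) else s / 2 * SignType.sign (θ x)| ≤ s / 2
    split_ifs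
    · rw [abs_zero]; positivity
    · rw [abs_mul, abs_of_pos (by positivity : 0 < s / 2)]
      have : |((SignType.sign (θ x) : SignType) : ℝ)| ≤ 1 := by
        rcases SignType.sign (θ x) with _ | _ | _ <;> simp
      calc s / 2 * _ ≤ s / 2 * 1 := mul_le_mul_of_nonneg_left this (by positivity)
        _ = s / 2 := mul_one _
  have hlip : ∀ x y, |f x - f y| ≤ 1 * dist x y := by
    intro x y
    rcases eq_or_ne x y with rfl | hxy
    · simp
    · have h1 := sep x y hxy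
      have h2 := abs_sub_le (f x) 0 (f y)
      have h3 := hf x
      have h4 := hf y
      rw [sub_zero, zero_sub, abs_neg] at h2
      linarith
  have h1 := abs_pairF_le (mkL f (by simp [f]) 1 zero_le_one hlip) (emb o θ)
  have h2 := mkL_norm f (by simp [f]) 1 zero_le_one hlip (o := o)
  have h3 : pairF (mkL f (by simp [f]) 1 zero_le_one hlip) (emb o θ)
      = s / 2 * ∑ x ∈ θ.support.filter (fun x => x ≠ o), |θ x| := by
    rw [pairF_emb, Finset.sum_filter, Finset.mul_sum]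
    refine Finset.sum_congr rfl fun x _ => ?_
    rw [mkL_fn]
    show θ x * (if x = o then (0 : ℝ) else s / 2 * SignType.sign (θ x)) = _
    by_cases h : x = o
    · simp [h]
    · simp only [h, if_false, ne_eq, not_false_eq_true, if_true]
      have : θ x * (s / 2 * (SignType.sign (θ x) : ℝ)) = s / 2 * ((SignType.sign (θ x) : ℝ) * θ x) := by
        ring
      rw [this, sign_mul_self]
  rw [h3] at h1
  have h4 : s / 2 * ∑ x ∈ θ.support.filter (fun x => x ≠ o), |θ x| ≤ ‖emb o θ‖ := by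
    refine (le_abs_self _).trans (h1.trans ?_)
    calc _ ≤ 1 * ‖emb o θ‖ := mul_le_mul_of_nonneg_right h2 (norm_nonneg _)
      _ = _ := one_mul _
  rw [div_mul_eq_mul_div, le_div_iff₀ hs]
  linarith

theorem δ_sub (x y : M) : ‖δ o x - δ o y‖ ≤ dist x y := by
  refine norm_le_of_pairF _ _ dist_nonneg fun f => ?_
  rw [map_sub, pairF_δ, pairF_δ, mul_comm]
  exact f.abs_sub_le x y

theorem δ_base : δ o o = 0 := by
  have h : ‖δ o o‖ ≤ 0 := norm_le_of_pairF _ _ le_rfl fun f => by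
    rw [pairF_δ, f.fn_base]; simp
  exact norm_le_zero_iff.1 h

/-- the representing function of a functional -/
def repr (Λ : StrongDual ℝ (Free M o)) : Lip0 M o :=
  mkL (fun x => Λ (δ o x)) (by rw [δ_base, map_zero]) ‖Λ‖ (norm_nonneg _) (fun x y => by
    rw [← map_sub, ← Real.norm_eq_abs]
    exact (Λ.le_opNorm _).trans (mul_le_mul_of_nonneg_left (δ_sub x y) (norm_nonneg _)))

theorem repr_norm (Λ : StrongDual ℝ (Free M o)) : ‖repr Λ‖ ≤ ‖Λ‖ := mkL_norm _ _ _ _ _

theorem repr_fn (Λ : StrongDual ℝ (Free M o)) (x : M) : (repr Λ).fn x = Λ (δ o x) := rfl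

theorem pairF_repr (Λ : StrongDual ℝ (Free M o)) (a : Free M o) : pairF (repr Λ) a = Λ a := by
  have h1 : ∀ ε > 0, |pairF (repr Λ) a - Λ a| ≤ ε * (2 * ‖Λ‖) := by
    intro ε hε
    obtain ⟨θ, hθ⟩ := exists_emb_near a ε hε
    have h2 : pairF (repr Λ) (emb o θ) = Λ (emb o θ) := by
      rw [pairF_emb]
      unfold emb
      rw [map_sum]
      exact Finset.sum_congr rfl fun x _ => by rw [map_smul, smul_eq_mul, repr_fn]
    have h3 : pairF (repr Λ) a - Λ a = pairF (repr Λ) (a - emb o θ) - Λ (a - emb o θ) := by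
      rw [map_sub, map_sub, h2]; ring
    rw [h3]
    have h4 := abs_pairF_le (repr Λ) (a - emb o θ)
    have h5 : |Λ (a - emb o θ)| ≤ ‖Λ‖ * ‖a - emb o θ‖ := Λ.le_opNorm _
    have h6 := abs_sub (pairF (repr Λ) (a - emb o θ)) (Λ (a - emb o θ))
    have h7 := repr_norm Λ
    have h8 : ‖repr Λ‖ * ‖a - emb o θ‖ ≤ ‖Λ‖ * ε :=
      mul_le_mul h7 hθ.le (norm_nonneg _) (norm_nonneg _)
    have h9 : ‖Λ‖ * ‖a - emb o θ‖ ≤ ‖Λ‖ * ε := mul_le_mul_of_nonneg_left hθ.le (norm_nonneg _)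
    linarith
  by_contra hne
  have hpos : 0 < |pairF (repr Λ) a - Λ a| := abs_pos.2 (sub_ne_zero.2 hne)
  set c := |pairF (repr Λ) a - Λ a|
  have h2 := h1 (c / (2 * (2 * ‖Λ‖ + 1))) (by positivity)
  have h3 : c / (2 * (2 * ‖Λ‖ + 1)) * (2 * ‖Λ‖) < c := by
    rw [div_mul_eq_mul_div, div_lt_iff₀ (by positivity)]
    have := norm_nonneg Λ
    nlinarith
  linarith

/-- If `omega A > c` then for every finite set `G` some element of `A` is at distance at least `c`
from the span of the evaluations in `G`. -/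
theorem exists_far (A : Set (Free M o)) (B c : ℝ) (hB : ∀ a ∈ A, ‖a‖ ≤ B)
    (hc : ENNReal.ofReal c < omega A) (G : Finset M) :
    ∃ a ∈ A, ∃ b : Lip0 M o, ‖b‖ ≤ 1 ∧ (∀ x ∈ G, b.fn x = 0) ∧ c ≤ pairF b a := by
  classical
  let F : Submodule ℝ (Free M o) := Submodule.span ℝ (δ o '' (G : Set M))
  have : FiniteDimensional ℝ F := FiniteDimensional.span_of_finite ℝ (G.finite_toSet.image _)
  have h1 : ∃ a ∈ A, c ≤ infDist a (F : Set (Free M o)) := by
    by_contra hcon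
    push Not at hcon
    exact absurd (omega_le_of_finite F A B c hB hcon) (not_le.2 hc)
  obtain ⟨a, ha, hac⟩ := h1
  obtain ⟨f, hf1, hf2, hf3⟩ := exists_functional F a
  refine ⟨a, ha, repr f, (repr_norm f).trans hf1, fun x hx => ?_, ?_⟩
  · rw [repr_fn]
    exact hf2 _ (Submodule.subset_span ⟨x, hx, rfl⟩)
  · rw [pairF_repr, hf3]
    exact hac

end Pool.Agent.NH62.WK
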