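import Pool.Agent.NH62.WK.Fr

set_option autoImplicit false

/-! The equivalence of `omega` and `wk` in Lipschitz-free spaces over uniformly separated metric
spaces. -/

noncomputable section

namespace Pool.Agent.NH62.WK

open Filter Topology Metric Set

universe u

variable {M : Type u} [MetricSpace M] {o : M}

/-- the cutoff function -/
def cut (o : M) (R : ℝ) (x : M) : ℝ := max 0 (min 1 (2 - dist x o / R))

theorem cut_nonneg (R : ℝ) (x : M) : 0 ≤ cut o R x := le_max_left _ _

theorem cut_le_one (R : ℝ) (x : M) : cut o R x ≤ 1 := max_le zero_le_one (min_le_left _ _)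

theorem cut_near {R : ℝ} (hR : 0 < R) {x : M} (h : dist x o ≤ R) : cut o R x = 1 := by
  unfold cut
  have : dist x o / R ≤ 1 := (div_le_one hR).2 h
  rw [min_eq_left (by linarith), max_eq_right zero_le_one]

theorem cut_far {R : ℝ} (hR : 0 < R) {x : M} (h : 2 * R ≤ dist x o) : cut o R x = 0 := by
  unfold cut
  have : 2 ≤ dist x o / R := (le_div_iff₀ hR).2 h
  rw [min_eq_right (by linarith), max_eq_left (by linarith)]

theorem cut_lip {R : ℝ} (hR : 0 < R) (x y : M) : |cut o R x - cut o R y| ≤ dist x y / R := by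
  unfold cut
  refine (abs_max_sub_max_le_max _ _ _ _).trans (max_le ?_ ?_)
  · simp only [sub_self, abs_zero]; positivity
  · refine (abs_min_sub_min_le_max _ _ _ _).trans (max_le ?_ ?_)
    · simp only [sub_self, abs_zero]; positivity
    · have h1 : 2 - dist x o / R - (2 - dist y o / R) = (dist y o - dist x o) / R := by ring
      rw [h1, abs_div, abs_of_pos hR]
      refine div_le_div_of_nonneg_right ?_ hR.le
      have := abs_dist_sub_le y x o
      rw [dist_comm x y]; exact this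

/-- multiplication by a function which is constant far away -/
theorem mul_lip (ψ : M → ℝ) (R L : ℝ) (hR : 0 < R) (hL : 0 ≤ L) (h1 : ∀ x, |ψ x| ≤ 1)
    (h2 : ∀ x y, |ψ x - ψ y| ≤ dist x y / R)
    (h3 : ∀ x y, 2 * R ≤ dist x o → 2 * R ≤ dist y o → ψ x = ψ y) (f : M → ℝ) (hf0 : f o = 0)
    (hf : ∀ x y, |f x - f y| ≤ L * dist x y) (x y : M) :
    |ψ x * f x - ψ y * f y| ≤ 3 * L * dist x y := by
  wlog h : dist y o ≤ dist x o generalizing x y
  · have := this y x (by linarith)
    rw [abs_sub_comm, dist_comm]; exact this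
  have e1 : ψ x * f x - ψ y * f y = ψ x * (f x - f y) + f y * (ψ x - ψ y) := by ring
  rw [e1]
  refine (abs_add_le _ _).trans ?_
  rw [abs_mul, abs_mul]
  have e2 : |ψ x| * |f x - f y| ≤ 1 * (L * dist x y) :=
    mul_le_mul (h1 x) (hf x y) (abs_nonneg _) zero_le_one
  have e3 : |f y| * |ψ x - ψ y| ≤ 2 * L * dist x y := by
    rcases le_or_gt (2 * R) (dist y o) with h4 | h4
    · rw [h3 x y (h4.trans h) h4, sub_self, abs_zero, mul_zero]
      positivity
    · have h5 := hf y o
      rw [hf0, sub_zero] at h5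
      have h6 : |f y| ≤ L * (2 * R) := h5.trans (mul_le_mul_of_nonneg_left h4.le hL)
      calc |f y| * |ψ x - ψ y| ≤ (L * (2 * R)) * (dist x y / R) :=
            mul_le_mul h6 (h2 x y) (abs_nonneg _) (by positivity)
        _ = 2 * L * dist x y := by field_simp
  linarith

/-- cutting a Lipschitz function far away -/
def cutIn (R : ℝ) (hR : 0 < R) (f : Lip0 M o) : Lip0 M o :=
  mkL (fun x => cut o R x * f.fn x) (by rw [f.fn_base, mul_zero]) (3 * ‖f‖) (by positivity)
    (mul_lip (cut o R) R ‖f‖ hR (norm_nonneg _)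
      (fun x => by rw [abs_of_nonneg (cut_nonneg _ _)]; exact cut_le_one _ _) (cut_lip hR)
      (fun x y hx hy => by rw [cut_far hR hx, cut_far hR hy]) f.fn f.fn_base f.abs_sub_le)

theorem cutIn_fn (R : ℝ) (hR : 0 < R) (f : Lip0 M o) (x : M) :
    (cutIn R hR f).fn x = cut o R x * f.fn x := rfl

theorem cutIn_norm (R : ℝ) (hR : 0 < R) (f : Lip0 M o) : ‖cutIn R hR f‖ ≤ 3 * ‖f‖ :=
  mkL_norm _ _ _ _ _

/-- cutting a Lipschitz function near the base point -/
def cutOut (R : ℝ) (hR : 0 < R) (f : Lip0 M o) : Lip0 M o :=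
  mkL (fun x => (1 - cut o R x) * f.fn x) (by rw [f.fn_base, mul_zero]) (3 * ‖f‖) (by positivity)
    (mul_lip (fun x => 1 - cut o R x) R ‖f‖ hR (norm_nonneg _)
      (fun x => by
        have h1 := cut_nonneg (o := o) R x
        have h2 := cut_le_one (o := o) R x
        rw [abs_le]; constructor <;> linarith)
      (fun x y => by
        have : (1 - cut o R x) - (1 - cut o R y) = cut o R y - cut o R x := by ring
        rw [this, abs_sub_comm]
        exact cut_lip hR x y)
      (fun x y hx hy => by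
        show 1 - cut o R x = 1 - cut o R y
        rw [cut_far hR hx, cut_far hR hy]) f.fn f.fn_base f.abs_sub_le)

theorem cutOut_fn (R : ℝ) (hR : 0 < R) (f : Lip0 M o) (x : M) :
    (cutOut R hR f).fn x = (1 - cut o R x) * f.fn x := rfl

theorem cutOut_norm (R : ℝ) (hR : 0 < R) (f : Lip0 M o) : ‖cutOut R hR f‖ ≤ 3 * ‖f‖ :=
  mkL_norm _ _ _ _ _

theorem cut_sum (R : ℝ) (hR : 0 < R) (f : Lip0 M o) (a : Free M o) :
    pairF f a = pairF (cutIn R hR f) a + pairF (cutOut R hR f) a := by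
  have : f = cutIn R hR f + cutOut R hR f := by
    apply Lip0.ext
    intro x
    rw [fn_add, cutIn_fn, cutOut_fn]; ring
  conv_lhs => rw [this]
  rw [pairF_apply, map_add]
  rfl

/-- The first case: the mass of the elements of `A` escapes to infinity. -/
theorem case_escape (A : Set (Free M o)) (B η : ℝ) (hB : ∀ a ∈ A, ‖a‖ ≤ B) (hη : 0 < η)
    (h : ∀ R (hR : 0 < R), ∃ a ∈ A, ∃ f : Lip0 M o, ‖f‖ ≤ 1 ∧ η < pairF (cutOut R hR f) a)
    (c : ℝ) (hc : c < η / 36) : ENNReal.ofReal c ≤ wk A := by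
  classical
  obtain ⟨p, hpP, hpr⟩ := exists_seq_of_forall_finset_exists
    (fun p : Free M o × Lip0 M o => p.1 ∈ A ∧ ‖p.2‖ ≤ 9 ∧ η / 2 ≤ pairF p.2 p.1 ∧
      ∃ ρ : ℝ, ∀ x, ρ ≤ dist x o → p.2.fn x = 0)
    (fun p q => ∀ x, p.2.fn x = 0 ∨ q.2.fn x = 0) (by
      intro s hs
      have h1 : ∃ R : ℝ, 0 < R ∧ ∀ p ∈ s, ∀ x, R ≤ dist x o → p.2.fn x = 0 := by
        have h2 : ∀ p, ∃ ρ : ℝ, p ∈ s → ∀ x, ρ ≤ dist x o → p.2.fn x = 0 := by
          intro p
          by_cases hp : p ∈ s
          · obtain ⟨ρ, hρ⟩ := (hs p hp).2.2.2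
            exact ⟨ρ, fun _ => hρ⟩
          · exact ⟨0, fun h => absurd h hp⟩
        choose ρ hρ using h2
        refine ⟨∑ p ∈ s, |ρ p| + 1, by positivity, fun p hp x hx => hρ p hp x ?_⟩
        have h3 : |ρ p| ≤ ∑ p ∈ s, |ρ p| :=
          Finset.single_le_sum (f := fun p => |ρ p|) (fun _ _ => abs_nonneg _) hp
        have h4 := le_abs_self (ρ p)
        linarith
      obtain ⟨R, hR, hRs⟩ := h1
      obtain ⟨a, ha, f, hf, hfa⟩ := h R hR
      obtain ⟨θ, hθ⟩ := exists_emb_near a (η / 24) (by positivity)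
      have hR'pos : 0 < ∑ x ∈ θ.support, dist x o + 1 := by positivity
      set R' := ∑ x ∈ θ.support, dist x o + 1 with hR'
      have hR'θ : ∀ x ∈ θ.support, dist x o ≤ R' := by
        intro x hx
        have := Finset.single_le_sum (f := fun x => dist x o) (fun _ _ => dist_nonneg) hx
        linarith
      have hn1 : ‖cutOut R hR f‖ ≤ 3 := (cutOut_norm R hR f).trans (by linarith)
      have hn2 : ‖cutIn R' hR'pos (cutOut R hR f)‖ ≤ 9 := (cutIn_norm _ _ _).trans (by linarith)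
      refine ⟨(a, cutIn R' hR'pos (cutOut R hR f)), ⟨ha, hn2, ?_, 2 * R', ?_⟩, ?_⟩
      · have h1 : pairF (cutIn R' hR'pos (cutOut R hR f)) (emb o θ)
            = pairF (cutOut R hR f) (emb o θ) := by
          rw [pairF_emb, pairF_emb]
          refine Finset.sum_congr rfl fun x hx => ?_
          rw [cutIn_fn, cut_near hR'pos (hR'θ x hx), one_mul]
        have h2 := abs_pairF_le (cutIn R' hR'pos (cutOut R hR f)) (a - emb o θ)
        have h3 := abs_pairF_le (cutOut R hR f) (a - emb o θ)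
        rw [map_sub] at h2 h3
        have h4 : ‖cutIn R' hR'pos (cutOut R hR f)‖ * ‖a - emb o θ‖ ≤ 9 * (η / 24) :=
          mul_le_mul hn2 hθ.le (norm_nonneg _) (by norm_num)
        have h5 : ‖cutOut R hR f‖ * ‖a - emb o θ‖ ≤ 3 * (η / 24) :=
          mul_le_mul hn1 hθ.le (norm_nonneg _) (by norm_num)
        have h6 := (abs_le.1 (h2.trans h4)).1
        have h7 := (abs_le.1 (h3.trans h5)).2
        show η / 2 ≤ pairF (cutIn R' hR'pos (cutOut R hR f)) a
        linarith
      · intro x hx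
        show (cutIn R' hR'pos (cutOut R hR f)).fn x = 0
        rw [cutIn_fn, cut_far hR'pos hx, zero_mul]
      · intro q hq x
        rcases le_or_gt R (dist x o) with h1 | h1
        · exact Or.inl (hRs q hq x h1)
        · right
          show (cutIn R' hR'pos (cutOut R hR f)).fn x = 0
          rw [cutIn_fn, cutOut_fn, cut_near hR h1.le]
          ring)
  have hdis : ∀ k n, k ≠ n → ∀ x, (p k).2.fn x = 0 ∨ (p n).2.fn x = 0 := by
    intro k n hkn x
    rcases lt_or_gt_of_ne hkn with hlt | hlt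
    · exact hpr k n hlt x
    · exact (hpr n k hlt x).symm
  refine wk_ge A (fun n => (p n).1) (fun n => (hpP n).1) B (fun n => hB _ (hpP n).1)
    (fun n => pairF (p n).2) (2 * 9) (by norm_num)
    (fun x K => disj_sum (fun n => (p n).2) 9 (fun n => (hpP n).2.1) hdis x K) (η / 2)
    (fun n => (hpP n).2.2.1) c ?_
  linarith

/-- The second case: the elements of `A` are, up to a small error, concentrated in a ball. -/
theorem case_bounded (s : ℝ) (hs : 0 < s) (sep : ∀ x y : M, x ≠ y → s ≤ dist x y)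
    (A : Set (Free M o)) (B c : ℝ) (hB : ∀ a ∈ A, ‖a‖ ≤ B) (hc : 0 < c)
    (hω : ENNReal.ofReal c < omega A) (R : ℝ) (hR : 0 < R)
    (h : ∀ a ∈ A, ∀ f : Lip0 M o, ‖f‖ ≤ 1 → pairF (cutOut R hR f) a ≤ c / 4) :
    ENNReal.ofReal (c / 200) ≤ wk A := by
  classical
  set ε : ℝ := c / 1000 with hε
  have hεpos : 0 < ε := by positivity
  obtain ⟨p, hpP, hpr⟩ := exists_seq_of_forall_finset_exists
    (fun p : Free M o × (M →₀ ℝ) × Lip0 M o => p.1 ∈ A ∧ ‖p.1 - emb o p.2.1‖ < ε ∧ ‖p.2.2‖ ≤ 1 ∧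
      (∀ x, 2 * R < dist x o → p.2.2.fn x = 0) ∧ c / 4 - ε ≤ pairF p.2.2 (emb o p.2.1))
    (fun p q => ∀ x ∈ p.2.1.support, q.2.2.fn x = 0) (by
      intro S hS
      obtain ⟨a, ha, b, hb1, hb2, hb3⟩ := exists_far A B c hB hω
        (S.biUnion fun p => p.2.1.support)
      obtain ⟨θ, hθ⟩ := exists_emb_near a ε hεpos
      have hn : ‖(1 / 3 : ℝ) • cutIn R hR b‖ ≤ 1 := by
        rw [norm_smul]
        have h1 := cutIn_norm R hR b
        have h2 : ‖(1 / 3 : ℝ)‖ = 1 / 3 := by norm_num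
        rw [h2]
        linarith
      refine ⟨(a, θ, (1 / 3 : ℝ) • cutIn R hR b), ⟨ha, hθ, hn, ?_, ?_⟩, ?_⟩
      · intro x hx
        show ((1 / 3 : ℝ) • cutIn R hR b).fn x = 0
        rw [fn_smul, cutIn_fn, cut_far hR hx.le]
        ring
      · show c / 4 - ε ≤ pairF ((1 / 3 : ℝ) • cutIn R hR b) (emb o θ)
        have h1 := cut_sum R hR b a
        have h2 := h a ha b hb1
        have h3 := abs_pairF_le ((1 / 3 : ℝ) • cutIn R hR b) (a - emb o θ)
        rw [map_sub] at h3
        have h4 : ‖(1 / 3 : ℝ) • cutIn R hR b‖ * ‖a - emb o θ‖ ≤ 1 * ε :=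
          mul_le_mul hn hθ.le (norm_nonneg _) (by norm_num)
        have h5 := (abs_le.1 (h3.trans h4)).2
        have h6 : pairF ((1 / 3 : ℝ) • cutIn R hR b) a = 1 / 3 * pairF (cutIn R hR b) a := by
          rw [pairF_apply, map_smul]; rfl
        rw [h6] at h5
        linarith
      · intro q hq x hx
        show ((1 / 3 : ℝ) • cutIn R hR b).fn x = 0
        rw [fn_smul, cutIn_fn, hb2 x (Finset.mem_biUnion.2 ⟨q, hq, hx⟩)]
        ring)
  let d : Data M :=
    { o := o
      θ := fun n => (p n).2.1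
      b := fun n => (p n).2.2.fn
      s := s
      D := 2 * R
      T := 2 / s * (B + ε)
      hs := hs
      hD := by positivity
      sep := sep
      lip := fun n x y => by
        have h1 := (p n).2.2.abs_sub_le x y
        have h2 := (hpP n).2.2.1
        calc _ ≤ ‖(p n).2.2‖ * dist x y := h1
          _ ≤ 1 * dist x y := mul_le_mul_of_nonneg_right h2 dist_nonneg
          _ = dist x y := one_mul _
      b_o := fun n => (p n).2.2.fn_base
      b_far := fun n x hx => (hpP n).2.2.2.1 x hx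
      b_prev := fun k n hkn x hx => hpr k n hkn x hx
      tv := fun n => by
        refine (tv_le s hs sep (p n).2.1 (o := o)).trans ?_
        refine mul_le_mul_of_nonneg_left ?_ (by positivity)
        have h1 := hB _ (hpP n).1
        have h2 := (hpP n).2.1
        have h3 := norm_sub_norm_le (emb o (p n).2.1) (p n).1
        rw [norm_sub_rev] at h3
        linarith }
  obtain ⟨φ, hφ, g, hg0, hglip, hgdis, hg⟩ := d.exists_select ε hεpos
  let G : ℕ → Lip0 M o := fun n => mkL (g n) (hg0 n) 1 zero_le_one (fun x y => by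
    rw [one_mul]; exact hglip n x y)
  have hGn : ∀ n, ‖G n‖ ≤ 1 := fun n => mkL_norm _ _ _ _ _
  have hGdis : ∀ k n, k ≠ n → ∀ x, (G k).fn x = 0 ∨ (G n).fn x = 0 := fun k n hkn x =>
    hgdis k n hkn x
  refine wk_ge A (fun n => (p (φ n)).1) (fun n => (hpP _).1) B (fun n => hB _ (hpP _).1)
    (fun n => pairF (G n)) (2 * 1) (by norm_num)
    (fun x K => disj_sum G 1 hGn hGdis x K) (c / 75) (fun n => ?_) (c / 200) (by linarith)
  have h1 : |pairF (G n) (emb o (p (φ n)).2.1) - 1 / 16 * pairF (p (φ n)).2.2 (emb o (p (φ n)).2.1)|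
      ≤ ε := by
    have h2 := hg n
    have h3 : pairF (G n) (emb o (p (φ n)).2.1)
          - 1 / 16 * pairF (p (φ n)).2.2 (emb o (p (φ n)).2.1)
        = ∑ x ∈ (d.θ (φ n)).support, d.θ (φ n) x * (g n x - d.b (φ n) x / 16) := by
      rw [pairF_emb, pairF_emb, Finset.mul_sum, ← Finset.sum_sub_distrib]
      refine Finset.sum_congr rfl fun x _ => ?_
      show (p (φ n)).2.1 x * g n x - 1 / 16 * ((p (φ n)).2.1 x * (p (φ n)).2.2.fn x)
        = (p (φ n)).2.1 x * (g n x - (p (φ n)).2.2.fn x / 16)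
      ring
    rw [h3]; exact h2
  have h2 := (hpP (φ n)).2.2.2.2
  have h3 := abs_pairF_le (G n) ((p (φ n)).1 - emb o (p (φ n)).2.1)
  rw [map_sub] at h3
  have h4 : ‖G n‖ * ‖(p (φ n)).1 - emb o (p (φ n)).2.1‖ ≤ 1 * ε :=
    mul_le_mul (hGn n) (hpP (φ n)).2.1.le (norm_nonneg _) (by norm_num)
  have h5 := (abs_le.1 (h3.trans h4)).1
  have h6 := (abs_le.1 h1).1
  show c / 75 ≤ pairF (G n) (p (φ n)).1
  have h7 : c / 75 ≤ (c / 4 - c / 1000) / 16 - 2 * (c / 1000) := by linarith
  linarith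

theorem omega_le_wk (s : ℝ) (hs : 0 < s) (sep : ∀ x y : M, x ≠ y → s ≤ dist x y)
    (A : Set (Free M o)) (hA : Bornology.IsBounded A) : omega A ≤ 200 * wk A := by
  obtain ⟨B, hB⟩ := hA.exists_norm_le
  by_contra hcon
  push Not at hcon
  obtain ⟨r, hr1, hr2⟩ := ENNReal.lt_iff_exists_nnreal_btwn.1 hcon
  have hrpos : (0 : ℝ) < r := by
    have h0 : (0 : ENNReal) < r := lt_of_le_of_lt (zero_le) hr1
    exact_mod_cast h0
  have hr2' : ENNReal.ofReal (r : ℝ) < omega A := by
    rwa [ENNReal.ofReal_coe_nnreal]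
  have key : ENNReal.ofReal ((r : ℝ) / 200) ≤ wk A := by
    by_cases h : ∃ R, ∃ hR : 0 < R, ∀ a ∈ A, ∀ f : Lip0 M o, ‖f‖ ≤ 1 →
        pairF (cutOut R hR f) a ≤ (r : ℝ) / 4
    · obtain ⟨R, hR, h⟩ := h
      exact case_bounded s hs sep A B r hB hrpos hr2' R hR h
    · push Not at h
      refine case_escape A B ((r : ℝ) / 4) hB (by positivity) ?_ _ (by linarith)
      intro R hR
      obtain ⟨a, ha, f, hf1, hf2⟩ := h R hR
      exact ⟨a, ha, f, hf1, hf2⟩
  have h1 : (r : ENNReal) ≤ 200 * wk A := by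
    calc (r : ENNReal) = 200 * ENNReal.ofReal ((r : ℝ) / 200) := by
          have h2 : (200 : ENNReal) = ENNReal.ofReal 200 := by norm_num
          rw [h2, ← ENNReal.ofReal_mul (by norm_num), mul_div_cancel₀ _ (by norm_num),
            ENNReal.ofReal_coe_nnreal]
      _ ≤ 200 * wk A := by gcongr
  exact absurd hr1 (not_lt.2 h1)

end Pool.Agent.NH62.WK
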