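import Mathlib

set_option autoImplicit false

/-! Rosenthal's lemma for matrices with nonnegative entries and bounded row sums. -/

namespace Pool.Agent.NH62.WK

open Filter Topology

theorem rosenthal (m : ℕ → ℕ → ℝ) (hm : ∀ n k, 0 ≤ m n k) (R : ℝ)
    (hR : ∀ (n : ℕ) (K : Finset ℕ), ∑ k ∈ K, m n k ≤ R) (ε : ℝ) (hε : 0 < ε) :
    ∃ φ : ℕ → ℕ, StrictMono φ ∧
      ∀ (n : ℕ) (K : Finset ℕ), n ∉ K → ∑ k ∈ K, m (φ n) (φ k) ≤ ε := by
  classical
  set U : Ultrafilter ℕ := hyperfilter ℕ with hU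
  -- limits along the ultrafilter
  have hlim : ∀ k, ∃ c : ℝ, Tendsto (fun n => m n k) U (𝓝 c) := by
    intro k
    have hmem : ∀ n, m n k ∈ Set.Icc (0 : ℝ) R := fun n =>
      ⟨hm n k, by simpa using hR n {k}⟩
    have hc : IsCompact (Set.Icc (0 : ℝ) R) := isCompact_Icc
    obtain ⟨c, -, hc⟩ := hc.ultrafilter_le_nhds (U.map fun n => m n k)
      (by
        rw [le_principal_iff]
        exact Filter.mem_map.2 (Filter.univ_mem' hmem))
    exact ⟨c, hc⟩
  choose c hc using hlim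
  have hc0 : ∀ k, 0 ≤ c k := fun k =>
    ge_of_tendsto (hc k) (Eventually.of_forall fun n => hm n k)
  have hcR : ∀ K : Finset ℕ, ∑ k ∈ K, c k ≤ R := by
    intro K
    have h1 : Tendsto (fun n => ∑ k ∈ K, m n k) U (𝓝 (∑ k ∈ K, c k)) :=
      tendsto_finsetSum _ fun k _ => hc k
    exact le_of_tendsto h1 (Eventually.of_forall fun n => hR n K)
  have hsum : ∀ a : ℕ → ℝ, (∀ k, 0 ≤ a k) → (∀ K : Finset ℕ, ∑ k ∈ K, a k ≤ R) →
      ∀ δ > 0, ∃ T : ℕ, ∀ K : Finset ℕ, (∀ k ∈ K, T ≤ k) → ∑ k ∈ K, a k ≤ δ := by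
    intro a ha haR δ hδ
    have hs : Summable a := summable_of_sum_le ha haR
    obtain ⟨s, hs⟩ := (summable_iff_vanishing_norm.1 hs) δ hδ
    refine ⟨s.sup id + 1, fun K hK => ?_⟩
    have hdis : Disjoint K s := by
      rw [Finset.disjoint_left]
      intro k hk hks
      have h1 := hK k hk
      have h2 : k ≤ s.sup id := Finset.le_sup (f := id) hks
      omega
    exact ((le_abs_self _).trans (hs K hdis).le)
  obtain ⟨K0, hK0⟩ := hsum c hc0 hcR (ε / 4) (by positivity)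
  choose T hT using fun n => hsum (m n) (hm n) (hR n) (ε / 2) (by positivity)
  obtain ⟨φ, hφP, hφ⟩ := exists_seq_of_forall_finset_exists (fun a : ℕ => K0 ≤ a)
    (fun a b : ℕ => a < b ∧ m b a ≤ c a + ε / 4 * (1 / 2) ^ (a + 1) ∧ T a ≤ b) (by
      intro s _
      have h1 : ∀ a ∈ s, ∀ᶠ b in (U : Filter ℕ),
          (a < b ∧ m b a ≤ c a + ε / 4 * (1 / 2) ^ (a + 1) ∧ T a ≤ b) := by
        intro a _
        have hU' : (U : Filter ℕ) ≤ atTop := Nat.hyperfilter_le_atTop
        have e1 : ∀ᶠ b in (U : Filter ℕ), a < b := hU' (eventually_gt_atTop a)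
        have e2 : ∀ᶠ b in (U : Filter ℕ), T a ≤ b := hU' (eventually_ge_atTop _)
        have e3 : ∀ᶠ b in (U : Filter ℕ), m b a < c a + ε / 4 * (1 / 2) ^ (a + 1) :=
          (hc a).eventually (gt_mem_nhds (by
            have : 0 < ε / 4 * (1 / 2 : ℝ) ^ (a + 1) := by positivity
            linarith))
        filter_upwards [e1, e2, e3] with b h1 h2 h3 using ⟨h1, h3.le, h2⟩
      have h2 : ∀ᶠ b in (U : Filter ℕ), ∀ a ∈ s,
          (a < b ∧ m b a ≤ c a + ε / 4 * (1 / 2) ^ (a + 1) ∧ T a ≤ b) :=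
        (Finset.eventually_all s).2 h1
      have hU' : (U : Filter ℕ) ≤ atTop := Nat.hyperfilter_le_atTop
      have e1 : ∀ᶠ b in (U : Filter ℕ), K0 ≤ b := hU' (eventually_ge_atTop _)
      obtain ⟨b, hb1, hb2⟩ := (e1.and h2).exists
      exact ⟨b, hb1, hb2⟩)
  have hmono : StrictMono φ := strictMono_nat_of_lt_succ fun n => (hφ n (n + 1) (by omega)).1
  refine ⟨φ, hmono, fun n K hn => ?_⟩
  have hsplit : ∑ k ∈ K, m (φ n) (φ k)
      = ∑ k ∈ K.filter (fun k => k < n), m (φ n) (φ k)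
        + ∑ k ∈ K.filter (fun k => ¬ k < n), m (φ n) (φ k) :=
    (Finset.sum_filter_add_sum_filter_not K _ _).symm
  rw [hsplit]
  have hB : ∑ k ∈ K.filter (fun k => ¬ k < n), m (φ n) (φ k) ≤ ε / 2 := by
    have := hT (φ n) ((K.filter (fun k => ¬ k < n)).image φ) (by
      intro k hk
      obtain ⟨j, hj, rfl⟩ := Finset.mem_image.1 hk
      have hj1 := (Finset.mem_filter.1 hj).1
      have hj2 := (Finset.mem_filter.1 hj).2
      have hne : j ≠ n := fun h => hn (h ▸ hj1)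
      exact (hφ n j (by omega)).2.2)
    rwa [Finset.sum_image (fun a _ b _ h => hmono.injective h)] at this
  have hA : ∑ k ∈ K.filter (fun k => k < n), m (φ n) (φ k) ≤ ε / 2 := by
    have h1 : ∑ k ∈ K.filter (fun k => k < n), m (φ n) (φ k)
        ≤ ∑ k ∈ K.filter (fun k => k < n), (c (φ k) + ε / 4 * (1 / 2) ^ (φ k + 1)) :=
      Finset.sum_le_sum fun k hk => (hφ k n (Finset.mem_filter.1 hk).2).2.1
    rw [Finset.sum_add_distrib] at h1
    have h2 : ∑ k ∈ K.filter (fun k => k < n), c (φ k) ≤ ε / 4 := by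
      have := hK0 ((K.filter (fun k => k < n)).image φ) (by
        intro k hk
        obtain ⟨j, hj, rfl⟩ := Finset.mem_image.1 hk
        exact hφP j)
      rwa [Finset.sum_image (fun a _ b _ h => hmono.injective h)] at this
    have h3 : ∑ k ∈ K.filter (fun k => k < n), ε / 4 * (1 / 2 : ℝ) ^ (φ k + 1) ≤ ε / 4 := by
      rw [← Finset.mul_sum]
      have h4 : ∑ k ∈ K.filter (fun k => k < n), (1 / 2 : ℝ) ^ (φ k + 1) ≤ 1 := by
        have h5 : ∑ k ∈ K.filter (fun k => k < n), (1 / 2 : ℝ) ^ (φ k + 1)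
            = ∑ k ∈ (K.filter (fun k => k < n)).image φ, (1 / 2 : ℝ) ^ (k + 1) := by
          rw [Finset.sum_image (fun a _ b _ h => hmono.injective h)]
        rw [h5]
        have hs : Summable (fun k : ℕ => (1 / 2 : ℝ) ^ (k + 1)) := by
          simpa [pow_succ] using (summable_geometric_two).mul_right (1 / 2 : ℝ)
        have ht : ∑' k : ℕ, (1 / 2 : ℝ) ^ (k + 1) = 1 := by
          simp_rw [pow_succ]
          rw [tsum_mul_right, tsum_geometric_two]
          norm_num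
        exact (hs.sum_le_tsum _ fun k _ => by positivity).trans ht.le
      calc ε / 4 * _ ≤ ε / 4 * 1 := mul_le_mul_of_nonneg_left h4 (by positivity)
        _ = ε / 4 := mul_one _
    linarith
  linarith

end Pool.Agent.NH62.WK
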