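import Pool.Agent.NH62.WK.Ros
import Pool.Agent.NH62.WK.Defs

set_option autoImplicit false

/-! A lower bound for `wk A`. -/

noncomputable section

namespace Pool.Agent.NH62.WK

open Filter Topology Metric Set

universe u

variable {X : Type u} [NormedAddCommGroup X] [NormedSpace ℝ X]

theorem exists_tail_functional (G : ℕ → StrongDual ℝ X) (L : ℝ) (hL : 0 < L)
    (hG : ∀ (x : X) (K : Finset ℕ), ∑ k ∈ K, |G k x| ≤ L * ‖x‖) (φ : ℕ → ℕ)
    (hφ : StrictMono φ) (j : ℕ) :
    ∃ h : StrongDual ℝ X, (∀ x, HasSum (fun i => G (φ (i + j)) x) (h x)) ∧ ‖h‖ ≤ L := by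
  classical
  have hinj : Function.Injective fun i => φ (i + j) := fun a b hab => by
    have := hφ.injective hab
    omega
  have hbd : ∀ (x : X) (K : Finset ℕ), ∑ i ∈ K, |G (φ (i + j)) x| ≤ L * ‖x‖ := by
    intro x K
    have := hG x (K.image fun i => φ (i + j))
    rwa [Finset.sum_image (fun a _ b _ h => hinj h)] at this
  have hsa : ∀ x, Summable fun i => |G (φ (i + j)) x| := fun x =>
    summable_of_sum_le (fun _ => abs_nonneg _) (hbd x)
  have hs : ∀ x, Summable fun i => G (φ (i + j)) x := fun x => (hsa x).of_abs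
  let lin : X →ₗ[ℝ] ℝ :=
    { toFun := fun x => ∑' i, G (φ (i + j)) x
      map_add' := fun x y => by
        simp only [map_add]
        exact (hs x).tsum_add (hs y)
      map_smul' := fun c x => by
        simp only [map_smul, smul_eq_mul, RingHom.id_apply]
        exact tsum_mul_left }
  have hlin : ∀ x, ‖lin x‖ ≤ L * ‖x‖ := by
    intro x
    have h1 : ‖∑' i, G (φ (i + j)) x‖ ≤ ∑' i, ‖G (φ (i + j)) x‖ :=
      norm_tsum_le_tsum_norm (hsa x)
    exact h1.trans ((hsa x).tsum_le_of_sum_le (hbd x))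
  refine ⟨lin.mkContinuous L hlin, fun x => (hs x).hasSum, lin.mkContinuous_norm_le hL.le hlin⟩

theorem wk_ge (A : Set X) (a : ℕ → X) (haA : ∀ n, a n ∈ A) (B : ℝ) (ha : ∀ n, ‖a n‖ ≤ B)
    (G : ℕ → StrongDual ℝ X) (L : ℝ) (hL : 0 < L)
    (hG : ∀ (x : X) (K : Finset ℕ), ∑ k ∈ K, |G k x| ≤ L * ‖x‖) (β : ℝ)
    (hGa : ∀ n, β ≤ G n (a n)) (c : ℝ) (hc : c < β / L) : ENNReal.ofReal c ≤ wk A := by
  classical
  have hcβ : c * L < β := (lt_div_iff₀ hL).1 hc
  obtain ⟨φ, hφ, hros⟩ := rosenthal (fun n k => |G k (a n)|) (fun _ _ => abs_nonneg _) (L * B)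
    (fun n K => (hG (a n) K).trans (mul_le_mul_of_nonneg_left (ha n) hL.le)) (β - c * L)
    (by linarith)
  choose h hsum hnorm using fun j => exists_tail_functional G L hL hG φ hφ j
  -- lower bound on the sequence
  have hlow : ∀ j n, j ≤ n → c * L ≤ h j (a (φ n)) := by
    intro j n hjn
    refine ge_of_tendsto (hsum j (a (φ n))) ?_
    filter_upwards [eventually_ge_atTop ({n - j} : Finset ℕ)] with K hK
    have hmem : n - j ∈ K := hK (Finset.mem_singleton_self _)
    rw [← Finset.add_sum_erase K _ hmem]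
    have h1 : G (φ (n - j + j)) (a (φ n)) = G (φ n) (a (φ n)) := by
      rw [Nat.sub_add_cancel hjn]
    rw [h1]
    have h2 := hros n ((K.erase (n - j)).image fun i => i + j) (by
      intro hcon
      obtain ⟨i, hi, hin⟩ := Finset.mem_image.1 hcon
      have := (Finset.mem_erase.1 hi).1
      omega)
    rw [Finset.sum_image (fun a _ b _ h => by simpa using h)] at h2
    have h3 : -(∑ i ∈ K.erase (n - j), |G (φ (i + j)) (a (φ n))|)
        ≤ ∑ i ∈ K.erase (n - j), G (φ (i + j)) (a (φ n)) := by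
      rw [← Finset.sum_neg_distrib]
      exact Finset.sum_le_sum fun i _ => neg_abs_le _
    have h4 := hGa (φ n)
    linarith
  -- the cluster point
  let U : Ultrafilter ℕ := hyperfilter ℕ
  let y : ℕ → WeakDual ℝ (StrongDual ℝ X) := fun n => StrongDual.toWeakDual (canon X (a (φ n)))
  have hcomp : IsCompact (WeakDual.toStrongDual ⁻¹' closedBall (0 : StrongDual ℝ (StrongDual ℝ X)) B) :=
    WeakDual.isCompact_closedBall 0 B
  obtain ⟨Φ, -, hΦ⟩ := hcomp.ultrafilter_le_nhds (U.map y) (by
    rw [le_principal_iff]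
    refine Filter.mem_map.2 (Filter.univ_mem' fun n => ?_)
    show WeakDual.toStrongDual (y n) ∈ closedBall 0 B
    refine (mem_closedBall_zero_iff (E := StrongDual ℝ (StrongDual ℝ X))).2 ?_
    exact (NormedSpace.double_dual_bound ℝ X _).trans (ha _))
  have hΦlim : ∀ f : StrongDual ℝ X, Tendsto (fun n => f (a (φ n))) U (𝓝 (Φ f)) := by
    intro f
    have h1 : Tendsto y U (𝓝 Φ) := hΦ
    exact ((WeakDual.eval_continuous f).tendsto Φ).comp h1
  have hUat : (U : Filter ℕ) ≤ atTop := Nat.hyperfilter_le_atTop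
  have hΦh : ∀ j, c * L ≤ Φ (h j) := by
    intro j
    refine ge_of_tendsto (hΦlim (h j)) ?_
    have : ∀ᶠ n in (U : Filter ℕ), j ≤ n := hUat (eventually_ge_atTop j)
    filter_upwards [this] with n hn using hlow j n hn
  have hmemcl : WeakDual.toStrongDual Φ ∈ wstarClosure (canon X '' A) := by
    show StrongDual.toWeakDual (WeakDual.toStrongDual Φ) ∈ closure _
    have h0 : StrongDual.toWeakDual (WeakDual.toStrongDual Φ) = Φ := rfl
    rw [h0]
    have h1 : Tendsto y U (𝓝 Φ) := hΦ
    refine mem_closure_of_tendsto h1 (Eventually.of_forall fun n => ?_)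
    exact ⟨canon X (a (φ n)), ⟨a (φ n), haA _, rfl⟩, rfl⟩
  have hdist : ENNReal.ofReal c ≤ infEDist (WeakDual.toStrongDual Φ) (range (canon X)) := by
    refine le_infEDist.2 ?_
    rintro _ ⟨x, rfl⟩
    rw [edist_dist]
    refine ENNReal.ofReal_le_ofReal ?_
    rw [dist_eq_norm]
    set N := ‖WeakDual.toStrongDual Φ - canon X x‖ with hN
    have h1 : ∀ j, c * L - h j x ≤ N * L := by
      intro j
      have h2 : (WeakDual.toStrongDual Φ - canon X x) (h j) = Φ (h j) - h j x := rfl
      have h3 : |Φ (h j) - h j x| ≤ N * L := by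
        rw [← h2, ← Real.norm_eq_abs]
        exact ((WeakDual.toStrongDual Φ - canon X x).le_opNorm (h j)).trans
          (mul_le_mul_of_nonneg_left (hnorm j) (norm_nonneg _))
      have h4 := le_abs_self (Φ (h j) - h j x)
      have h5 := hΦh j
      linarith
    have h2 : Tendsto (fun j => c * L - h j x) atTop (𝓝 (c * L - 0)) := by
      refine tendsto_const_nhds.sub ?_
      have h3 : ∀ j, h j x = ∑' i, G (φ (i + j)) x := fun j => ((hsum j x).tsum_eq).symm
      simp only [h3]
      exact tendsto_sum_nat_add fun i => G (φ i) x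
    have h3 := le_of_tendsto h2 (Eventually.of_forall h1)
    rw [sub_zero] at h3
    exact le_of_mul_le_mul_right h3 hL
  refine hdist.trans ?_
  unfold wk dhat
  exact le_iSup₂ (f := fun b (_ : b ∈ wstarClosure (canon X '' A)) => infEDist b (range (canon X)))
    _ hmemcl

end Pool.Agent.NH62.WK
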